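import Pool.Agent.Y755.FK.Top
import Pool.Agent.Y755.FK.FinL

set_option autoImplicit false

/-!
MP_5d10af_nt, Q2 and a stronger form of Q1: the error term in the average of `#2Cl(K)[4]` over imaginary quadratic
fields does not save arbitrary powers of the logarithm: for some `A` it is not `O(X / (log X)^A)`.
-/

/-- Let `S(X)` be the sum, over imaginary quadratic fields `K` with `|disc K| < X`, of the size of `2Cl(K)[4]`. Then
for every `c` there is a natural number `A` such that for every `C` there is `X ≥ 2` with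
`|S(X) - cX| > C * X / (log X)^A`. -/
theorem Pool.Agent.Results.MP_5d10af_nt.NoLogarithmicSaving.result :
    ∀ F : ℤ → ℕ,
      (∀ d : ℤ,
        (∀ (K : Type) [Field K] [NumberField K],
            Module.finrank ℚ K = 2 → NumberField.discr K = d →
              F d = Nat.card {y : ClassGroup (NumberField.RingOfIntegers K) //
                ∃ x : ClassGroup (NumberField.RingOfIntegers K), x ^ 4 = 1 ∧ x ^ 2 = y}) ∧
        ((¬ ∃ (K : Type) (_ : Field K) (_ : NumberField K),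
            Module.finrank ℚ K = 2 ∧ NumberField.discr K = d) → F d = 0)) →
      ∀ c : ℝ, ∃ A : ℕ, ∀ C : ℝ,
        ∃ X : ℝ, 2 ≤ X ∧
          C * X / Real.log X ^ A < |(∑ d ∈ Finset.Ioo (-⌈X⌉) 0, (F d : ℝ)) - c * X| := by
  intro F hF c
  obtain ⟨A, hA⟩ := Pool.Agent.Y755.FKL.main_ofL Pool.Agent.Y442.FK.t_COMB Pool.Agent.Y755.FK.a_ACA
    Pool.Agent.Y755.FK.a_FAC Pool.Agent.Y755.FK.a_ALG Pool.Agent.Y755.FK.a_EEA Pool.Agent.Y755.FK.a_LAP
    Pool.Agent.Y755.FK.a_LOC Pool.Agent.Y755.FK.a_HW Pool.Agent.Y755.FK.a_TDEC Pool.Agent.Y755.FK.a_TOS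
    Pool.Agent.Y755.FK.a_RD Pool.Agent.Y755.FK.a_RD1 Pool.Agent.Y755.FK.a_ZV Pool.Agent.Y755.FK.a_NV
    (Pool.Agent.Y755.FKL.t_HYPL Pool.Agent.Y755.FK.a_EEA) Pool.Agent.Y755.FK.a_DET (F := F) hF c
  refine ⟨A, fun C => ?_⟩
  obtain ⟨X, hX, h⟩ := hA C
  refine ⟨X, hX, ?_⟩
  rw [Pool.Agent.Y755.FK.sum_eq F hX]
  exact h
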